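import Pool.Agent.Lib.MP_b07157_agC3.Facet3

/-!
# C3'. The facet lemma for three variables, full form

Either `(1,1,1)` is in the cone of `G`, or the convex hull of `G` contains a point `a ≥ (1,1,1)` that
is not integral, or it contains an integral point `a ≥ (1,1,1)` with two coordinates equal to `1`.
-/

noncomputable section

namespace MPb07157.C3

open Finset

variable {G R : Finset (Fin 3 → ℕ)} {γ : (Fin 3 → ℕ) → ℚ} {k : Fin 3 → ℕ} {N : ℕ}

/-- The point with coefficients `l`. -/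
def pt (G : Finset (Fin 3 → ℕ)) (l : (Fin 3 → ℕ) → ℚ) (j : Fin 3) : ℚ := ∑ v ∈ G, l v * (v j : ℚ)

/-- Convex coefficients. -/
def Cvx (G : Finset (Fin 3 → ℕ)) (l : (Fin 3 → ℕ) → ℚ) : Prop :=
  (∀ v ∈ G, 0 ≤ l v) ∧ ∑ v ∈ G, l v = 1

open Classical in
/-- The coefficients of the vertex `v`. -/
def dl (v : Fin 3 → ℕ) : (Fin 3 → ℕ) → ℚ := fun u => if u = v then 1 else 0

theorem pt_dl {v : Fin 3 → ℕ} (hv : v ∈ G) (j : Fin 3) : pt G (dl v) j = v j := by
  classical
  unfold pt dl
  simp only [ite_mul, one_mul, zero_mul]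
  rw [Finset.sum_ite_eq' G v, if_pos hv]

theorem sum_dl {v : Fin 3 → ℕ} (hv : v ∈ G) : ∑ u ∈ G, dl v u = 1 := by
  classical
  unfold dl
  rw [Finset.sum_ite_eq' G v, if_pos hv]

theorem dl_nonneg (v u : Fin 3 → ℕ) : 0 ≤ dl v u := by
  unfold dl
  split_ifs <;> norm_num

theorem pt_comb (l l' : (Fin 3 → ℕ) → ℚ) (s t : ℚ) (j : Fin 3) :
    pt G (fun v => s * l v + t * l' v) j = s * pt G l j + t * pt G l' j := by
  unfold pt
  rw [Finset.mul_sum, Finset.mul_sum, ← Finset.sum_add_distrib]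
  exact Finset.sum_congr rfl fun v _ => by ring

theorem sum_comb (l l' : (Fin 3 → ℕ) → ℚ) (s t : ℚ) :
    ∑ v ∈ G, (s * l v + t * l' v) = s * ∑ v ∈ G, l v + t * ∑ v ∈ G, l' v := by
  rw [Finset.mul_sum, Finset.mul_sum, ← Finset.sum_add_distrib]

/-- **The facet lemma, full form.** -/
theorem facet3 (G : Finset (Fin 3 → ℕ)) (w : Fin 3 → ℕ) (N : ℕ) (hw : ∀ j, 0 < w j)
    (hG : ∀ v ∈ G, ∑ j, w j * v j = N) (rho : Finset (Fin 3 → ℕ)) (hrho : rho ⊆ G)
    (gam : (Fin 3 → ℕ) → ℚ) (one : ∀ j, ∑ v ∈ rho, gam v * (v j : ℚ) = 1)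
    (tw : ∀ j, (∃ v ∈ rho, (∀ m : ℕ, gam v ≠ m + 1) ∧ 0 < v j) ∨
      ∃ j', j' ≠ j ∧ ∀ v ∈ rho, v j' = v j) :
    (∃ l : (Fin 3 → ℕ) → ℚ, (∀ v ∈ G, 0 ≤ l v) ∧ ∀ j, ∑ v ∈ G, l v * (v j : ℚ) = 1) ∨
    (∃ l : (Fin 3 → ℕ) → ℚ, (∀ v ∈ G, 0 ≤ l v) ∧ ∑ v ∈ G, l v = 1 ∧
      (∀ j, 1 ≤ ∑ v ∈ G, l v * (v j : ℚ)) ∧
      ∃ j, ∀ m : ℤ, ∑ v ∈ G, l v * (v j : ℚ) ≠ m) ∨
    (∃ l : (Fin 3 → ℕ) → ℚ, (∀ v ∈ G, 0 ≤ l v) ∧ ∑ v ∈ G, l v = 1 ∧
      (∀ j, ∃ m : ℕ, 1 ≤ m ∧ ∑ v ∈ G, l v * (v j : ℚ) = m) ∧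
      ∃ i i', i ≠ i' ∧ ∑ v ∈ G, l v * (v i : ℚ) = 1 ∧ ∑ v ∈ G, l v * (v i' : ℚ) = 1) := by
  classical
  rcases oneMem_or_thick (G := G) (R := rho) (γ := gam) (k := w) (N := N) ⟨hrho, one, tw⟩ hw hG
    with hA | ⟨l₀, hl₀, hs₀, hp₀⟩
  · exact Or.inl hA
  by_contra hcon
  rw [not_or, not_or] at hcon
  obtain ⟨hA, hB1, hB2⟩ := hcon
  -- all the points are integral
  have hint : ∀ l : (Fin 3 → ℕ) → ℚ, (∀ v ∈ G, 0 ≤ l v) → ∑ v ∈ G, l v = 1 →
      (∀ j, 1 ≤ pt G l j) → ∀ j, ∃ m : ℤ, pt G l j = m := by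
    intro l h1 h2 h3
    by_contra hc
    push Not at hc
    exact hB1 ⟨l, h1, h2, h3, hc⟩
  -- they coincide
  have huniq : ∀ l l' : (Fin 3 → ℕ) → ℚ, (∀ v ∈ G, 0 ≤ l v) → ∑ v ∈ G, l v = 1 →
      (∀ j, 1 ≤ pt G l j) → (∀ v ∈ G, 0 ≤ l' v) → ∑ v ∈ G, l' v = 1 →
      (∀ j, 1 ≤ pt G l' j) → ∀ j, pt G l' j = pt G l j := by
    intro l l' h1 h2 h3 h1' h2' h3' j
    obtain ⟨m, hm⟩ := hint l h1 h2 h3 j
    obtain ⟨m', hm'⟩ := hint l' h1' h2' h3' j
    by_contra hne
    rw [hm, hm'] at hne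
    have hd : m' - m ≠ 0 := fun h => hne (by
      have : m' = m := by linarith
      rw [this])
    have habs : (1 : ℚ) ≤ |((m' - m : ℤ) : ℚ)| := by
      have : 1 ≤ |m' - m| := Int.one_le_abs hd
      exact_mod_cast this
    set d : ℚ := ((m' - m : ℤ) : ℚ) with hdd
    have hd0 : d ≠ 0 := by
      intro h
      rw [h, abs_zero] at habs
      linarith
    let t : ℚ := 1 / (2 * |d|)
    have ht0 : 0 < t := by positivity
    have ht1 : t ≤ 1 := by
      simp only [t]
      rw [div_le_one (by positivity)]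
      linarith
    obtain ⟨q, hq⟩ := hint (fun v => (1 - t) * l v + t * l' v)
      (fun v hv => add_nonneg (mul_nonneg (by linarith) (h1 v hv)) (mul_nonneg ht0.le (h1' v hv)))
      (by rw [sum_comb, h2, h2']; ring)
      (fun i => by
        rw [pt_comb]
        have := h3 i
        have := h3' i
        nlinarith [mul_nonneg (sub_nonneg.2 ht1) (sub_nonneg.2 (h3 i)),
          mul_nonneg ht0.le (sub_nonneg.2 (h3' i))]) j
    rw [pt_comb, hm, hm'] at hq
    have e1 : (q : ℚ) - m = t * d := by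
      rw [← hq, hdd]
      push_cast
      ring
    have e2 : |(q : ℚ) - m| = 1 / 2 := by
      rw [e1, abs_mul, abs_of_pos ht0]
      simp only [t]
      field_simp
    have e3 : |((2 * (q - m) : ℤ) : ℚ)| = 1 := by
      push_cast
      rw [abs_mul, e2]
      norm_num
    have e4 : |2 * (q - m)| = 1 := by exact_mod_cast e3
    rw [abs_mul] at e4
    have e5 := Int.isUnit_iff.1 (IsUnit.of_mul_eq_one _ e4)
    rcases e5 with h | h <;> norm_num at h
  have hp₀' : ∀ j, 1 ≤ pt G l₀ j := hp₀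
  have hnat : ∀ j, ∃ m : ℕ, 1 ≤ m ∧ pt G l₀ j = m := by
    intro j
    obtain ⟨m, hm⟩ := hint l₀ hl₀ hs₀ hp₀' j
    have h1 := hp₀' j
    rw [hm] at h1
    have h2 : 1 ≤ m := by exact_mod_cast h1
    refine ⟨m.toNat, by omega, ?_⟩
    rw [hm]
    have : ((m.toNat : ℕ) : ℤ) = m := Int.toNat_of_nonneg (by omega)
    exact_mod_cast this.symm
  -- not two coordinates equal to one
  have htwo : ∀ i i', i ≠ i' → pt G l₀ i = 1 → pt G l₀ i' = 1 → False := fun i i' h h1 h2 =>
    hB2 ⟨l₀, hl₀, hs₀, hnat, i, i', h, h1, h2⟩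
  have hge2 : ∀ j, pt G l₀ j ≠ 1 → 2 ≤ pt G l₀ j := by
    intro j hj
    obtain ⟨m, h1, h2⟩ := hnat j
    rw [h2] at hj ⊢
    have h3 : m ≠ 1 := fun h => hj (by rw [h]; norm_num)
    exact_mod_cast (by omega : 2 ≤ m)
  by_cases hcase : ∃ v ∈ G, 0 < l₀ v ∧ ∃ j, (v j : ℚ) ≠ pt G l₀ j
  · obtain ⟨v, hv, hlv, j₀, hj₀⟩ := hcase
    set S : ℚ := ∑ j, (v j : ℚ) with hS
    have hS0 : 0 ≤ S := Finset.sum_nonneg fun j _ => Nat.cast_nonneg _
    have hvS : ∀ j, (v j : ℚ) ≤ S := fun j =>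
      Finset.single_le_sum (f := fun j => (v j : ℚ)) (fun i _ => Nat.cast_nonneg _)
        (Finset.mem_univ j)
    let t : ℚ := min (l₀ v) (1 / (2 + S))
    have ht0 : 0 < t := lt_min hlv (by positivity)
    have htl : t ≤ l₀ v := min_le_left _ _
    have htS : t * (2 + S) ≤ 1 := by
      have : t ≤ 1 / (2 + S) := min_le_right _ _
      rwa [le_div_iff₀ (by positivity)] at this
    have ht2 : t ≤ 1 / 2 := by nlinarith
    -- the two perturbed points are not in `P₁`
    have k1 : ∃ i, pt G l₀ i = 1 ∧ (v i : ℚ) < 1 := by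
      by_contra hc
      push Not at hc
      have h2 := huniq l₀ (fun u => (1 - t) * l₀ u + t * dl v u) hl₀ hs₀ hp₀'
        (fun u hu => add_nonneg (mul_nonneg (by linarith) (hl₀ u hu))
          (mul_nonneg ht0.le (dl_nonneg v u)))
        (by rw [sum_comb, hs₀, sum_dl hv]; ring)
        (fun i => by
          rw [pt_comb, pt_dl hv]
          by_cases hi : pt G l₀ i = 1
          · have := hc i hi
            rw [hi]
            nlinarith
          · have := hge2 i hi
            have h0 : (0 : ℚ) ≤ v i := Nat.cast_nonneg _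
            nlinarith [mul_nonneg ht0.le h0]) j₀
      rw [pt_comb, pt_dl hv] at h2
      apply hj₀
      have h3 : t * ((v j₀ : ℚ) - pt G l₀ j₀) = 0 := by linarith
      rcases mul_eq_zero.1 h3 with h | h
      · exact absurd h ht0.ne'
      · linarith
    have k2 : ∃ i, pt G l₀ i = 1 ∧ 1 < (v i : ℚ) := by
      by_contra hc
      push Not at hc
      have h2 := huniq l₀ (fun u => (1 + t) * l₀ u + (-t) * dl v u) hl₀ hs₀ hp₀'
        (fun u hu => by
          by_cases huv : u = v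
          · subst huv
            have : dl u u = 1 := if_pos rfl
            rw [this]
            nlinarith
          · have : dl v u = 0 := if_neg huv
            rw [this]
            have := hl₀ u hu
            nlinarith)
        (by rw [sum_comb, hs₀, sum_dl hv]; ring)
        (fun i => by
          rw [pt_comb, pt_dl hv]
          by_cases hi : pt G l₀ i = 1
          · have := hc i hi
            rw [hi]
            nlinarith
          · have h5 := hge2 i hi
            have h6 := hvS i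
            have h7 : t * (v i : ℚ) ≤ t * S := mul_le_mul_of_nonneg_left h6 ht0.le
            nlinarith) j₀
      rw [pt_comb, pt_dl hv] at h2
      apply hj₀
      have h3 : t * ((v j₀ : ℚ) - pt G l₀ j₀) = 0 := by linarith
      rcases mul_eq_zero.1 h3 with h | h
      · exact absurd h ht0.ne'
      · linarith
    obtain ⟨i, hi, hi'⟩ := k1
    obtain ⟨i', h1, h2⟩ := k2
    refine htwo i i' ?_ hi h1
    rintro rfl
    linarith
  push Not at hcase
  -- the point is a vertex
  obtain ⟨v, hv, hlv⟩ : ∃ v ∈ G, 0 < l₀ v := by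
    by_contra hc
    push Not at hc
    have : ∑ v ∈ G, l₀ v ≤ 0 := Finset.sum_nonpos hc
    linarith
  have hvp : ∀ j, (v j : ℚ) = pt G l₀ j := hcase v hv hlv
  have hv1 : ∀ j, 1 ≤ v j := by
    intro j
    have := hp₀' j
    rw [← hvp] at this
    exact_mod_cast this
  have hother : ∀ u ∈ G, u ≠ v → ∃ j, v j = 1 ∧ u j = 0 := by
    intro u hu hne
    by_contra hc
    push Not at hc
    have h2 := huniq l₀ (fun x => (1 / 2) * dl v x + (1 / 2) * dl u x) hl₀ hs₀ hp₀'
      (fun x _ => add_nonneg (mul_nonneg (by norm_num) (dl_nonneg v x))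
        (mul_nonneg (by norm_num) (dl_nonneg u x)))
      (by rw [sum_comb, sum_dl hv, sum_dl hu]; ring)
      (fun i => by
        rw [pt_comb, pt_dl hv, pt_dl hu]
        by_cases hi : v i = 1
        · have h3 : 1 ≤ u i := Nat.one_le_iff_ne_zero.2 (hc i hi)
          have h4 : (1 : ℚ) ≤ u i := by exact_mod_cast h3
          rw [hi]
          push_cast
          linarith
        · have h3 : 2 ≤ v i := by
            have := hv1 i
            omega
          have h4 : (2 : ℚ) ≤ v i := by exact_mod_cast h3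
          have h5 : (0 : ℚ) ≤ u i := Nat.cast_nonneg _
          linarith)
    apply hne
    funext j
    have h3 := h2 j
    rw [pt_comb, pt_dl hv, pt_dl hu, ← hvp] at h3
    have h4 : (u j : ℚ) = v j := by linarith
    exact_mod_cast h4
  by_cases hex : ∃ u ∈ G, u ≠ v
  · obtain ⟨u₀, hu₀, hne₀⟩ := hex
    obtain ⟨i, hvi, -⟩ := hother u₀ hu₀ hne₀
    have hone : ∀ j, v j = 1 → j = i := by
      intro j hj
      by_contra hne
      refine htwo j i hne ?_ ?_
      · rw [← hvp, hj]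
        norm_num
      · rw [← hvp, hvi]
        norm_num
    have hall : ∀ u ∈ G, u ≠ v → u i = 0 := by
      intro u hu hne
      obtain ⟨j, h1, h2⟩ := hother u hu hne
      rwa [hone j h1] at h2
    have hsum := one i
    have hvr : v ∈ rho := by
      by_contra hnr
      rw [Finset.sum_eq_zero fun u hu => by
        rw [hall u (hrho hu) (fun h => hnr (h ▸ hu))]; simp] at hsum
      exact absurd hsum (by norm_num)
    have hγ : gam v = 1 := by
      rw [Finset.sum_eq_single v (fun u hu hne => by rw [hall u (hrho hu) hne]; simp)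
        (fun h => absurd hvr h), hvi] at hsum
      simpa using hsum
    rcases tw i with ⟨x, hx, hm, hpos⟩ | ⟨j', hj', h⟩
    · have hxv : x = v := by
        by_contra hne
        have := hall x (hrho hx) hne
        omega
      apply hm 0
      rw [hxv, hγ]
      simp
    · have h1 := h v hvr
      rw [hvi] at h1
      exact hj' (hone j' h1)
  · push Not at hex
    apply hA
    have hvr : v ∈ rho := by
      by_contra hnr
      have hemp : rho = ∅ := by
        rw [Finset.eq_empty_iff_forall_notMem]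
        intro u hu
        exact hnr (hex u (hrho hu) ▸ hu)
      have := one 0
      rw [hemp, Finset.sum_empty] at this
      exact absurd this (by norm_num)
    have hro : rho = {v} := by
      ext u
      rw [Finset.mem_singleton]
      exact ⟨fun h => hex u (hrho h), fun h => h ▸ hvr⟩
    have hGv : G = {v} := by
      ext u
      rw [Finset.mem_singleton]
      exact ⟨fun h => hex u h, fun h => h ▸ hv⟩
    have hg1 : ∀ j, gam v * (v j : ℚ) = 1 := by
      intro j
      have := one j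
      rwa [hro, Finset.sum_singleton] at this
    refine ⟨fun _ => gam v, fun u _ => ?_, fun j => ?_⟩
    · have h1 := hg1 0
      have h2 : (1 : ℚ) ≤ v 0 := by exact_mod_cast hv1 0
      by_contra hc
      push Not at hc
      nlinarith
    · rw [hGv, Finset.sum_singleton]
      exact hg1 j

end MPb07157.C3
end
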