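import Mathlib
import Pool.Agent.Lib.MP_b07157_ag.LC.Farkas

/-!
# C3. The facet lemma for three variables

`G` is a finite set of exponents in `ℕ^3` on a plane `∑ k_i u_i = N` with `k_i > 0`, which carries a
good set `(R, γ)`.  Then `(1,1,1)` is in the cone of `G`, or the convex hull of `G` contains a
point `q ≥ (1,1,1)`.
-/

noncomputable section

namespace MPb07157.C3

open Finset

variable {G R : Finset (Fin 3 → ℕ)} {γ : (Fin 3 → ℕ) → ℚ} {k : Fin 3 → ℕ} {N : ℕ}

/-- `(1,1,1)` is in the cone of `G`. -/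
def OneMem (G : Finset (Fin 3 → ℕ)) : Prop :=
  ∃ c : (Fin 3 → ℕ) → ℚ, (∀ u ∈ G, 0 ≤ c u) ∧ ∀ j, ∑ u ∈ G, c u * (u j : ℚ) = 1

/-- The convex hull of `G` contains a point `q ≥ (1,1,1)`. -/
def Thick (G : Finset (Fin 3 → ℕ)) : Prop :=
  ∃ c : (Fin 3 → ℕ) → ℚ, (∀ u ∈ G, 0 ≤ c u) ∧ ∑ u ∈ G, c u = 1 ∧
    ∀ j, 1 ≤ ∑ u ∈ G, c u * (u j : ℚ)

/-- The hypotheses on a good set. -/
structure Good (G R : Finset (Fin 3 → ℕ)) (γ : (Fin 3 → ℕ) → ℚ) : Prop where
  sub : R ⊆ G
  one : ∀ j, ∑ u ∈ R, γ u * (u j : ℚ) = 1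
  tw : ∀ j, (∃ v ∈ R, (∀ m : ℕ, γ v ≠ m + 1) ∧ 0 < v j) ∨ ∃ j', j' ≠ j ∧ ∀ v ∈ R, v j' = v j

theorem thick_of_pt {u : Fin 3 → ℕ} (hu : u ∈ G) (h : ∀ j, 1 ≤ u j) : Thick G := by
  classical
  refine ⟨fun v => if v = u then 1 else 0, fun v _ => by dsimp only; split_ifs <;> norm_num, ?_,
    fun j => ?_⟩
  · rw [Finset.sum_ite_eq' G u, if_pos hu]
  · have : ∑ v ∈ G, (if v = u then (1 : ℚ) else 0) * (v j : ℚ) = (u j : ℚ) := by
      simp only [ite_mul, one_mul, zero_mul]
      rw [Finset.sum_ite_eq' G u, if_pos hu]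
    rw [this]
    exact_mod_cast h j

theorem thick_of_mid {u v : Fin 3 → ℕ} (hu : u ∈ G) (hv : v ∈ G)
    (h : ∀ j, (2 : ℚ) ≤ (u j : ℚ) + (v j : ℚ)) : Thick G := by
  classical
  refine ⟨fun w => (if w = u then 1 / 2 else 0) + (if w = v then 1 / 2 else 0),
    fun w _ => by dsimp only; split_ifs <;> norm_num, ?_, fun j => ?_⟩
  · rw [Finset.sum_add_distrib, Finset.sum_ite_eq' G u, Finset.sum_ite_eq' G v, if_pos hu,
      if_pos hv]
    norm_num
  · have : ∑ w ∈ G, ((if w = u then (1 / 2 : ℚ) else 0) + (if w = v then 1 / 2 else 0)) *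
        (w j : ℚ) = ((u j : ℚ) + (v j : ℚ)) / 2 := by
      simp only [add_mul, ite_mul, zero_mul]
      rw [Finset.sum_add_distrib, Finset.sum_ite_eq' G u, Finset.sum_ite_eq' G v, if_pos hu,
        if_pos hv]
      ring
    rw [this]
    have := h j
    linarith

theorem sum3 {i j l : Fin 3} (hij : i ≠ j) (hil : i ≠ l) (hjl : j ≠ l) {M : Type} [AddCommMonoid M]
    (F : Fin 3 → M) : ∑ m, F m = F i + F j + F l := by
  have hu : (Finset.univ : Finset (Fin 3)) = {i, j, l} := by
    revert i j l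
    decide
  rw [hu, Finset.sum_insert (by simp [hij, hil]), Finset.sum_insert (by simp [hjl]),
    Finset.sum_singleton, add_assoc]

theorem cases3 {i j l : Fin 3} (hij : i ≠ j) (hil : i ≠ l) (hjl : j ≠ l) (m : Fin 3) :
    m = i ∨ m = j ∨ m = l := by
  revert i j l m
  decide

/-- The apex lemma: if `G` has height at most one in direction `j` with `u_l = 0` at the apex, the
good set is a twin configuration. -/
theorem apex (hg : Good G R γ) (hk : ∀ i, 0 < k i)
    (hG : ∀ u ∈ G, ∑ i, k i * u i = N) {i j l : Fin 3} (hij : i ≠ j) (hil : i ≠ l)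
    (hjl : j ≠ l) (hap : ∀ u ∈ G, u j = 0 ∨ (u j = 1 ∧ u l = 0)) :
    (∃ v ∈ G, v i = 1 ∧ v j = 1 ∧ v l = 0) ∧ ∃ w ∈ G, w i = 0 ∧ w j = 0 ∧ 0 < w l := by
  classical
  -- the points with `u j = 1` coincide
  have huniq : ∀ u ∈ G, ∀ v ∈ G, u j = 1 → v j = 1 → u = v := by
    intro u hu v hv huj hvj
    have hul : u l = 0 := by rcases hap u hu with h | h <;> omega
    have hvl : v l = 0 := by rcases hap v hv with h | h <;> omega
    have h1 := hG u hu
    have h2 := hG v hv
    rw [sum3 hij hil hjl] at h1 h2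
    rw [huj, hul] at h1
    rw [hvj, hvl] at h2
    have h3 : k i * u i = k i * v i := by omega
    have h4 : u i = v i := Nat.eq_of_mul_eq_mul_left (hk i) h3
    funext m
    rcases cases3 hij hil hjl m with rfl | rfl | rfl
    · exact h4
    · omega
    · omega
  -- there is an apex in `R`
  obtain ⟨v, hvR, hvj⟩ : ∃ v ∈ R, v j = 1 := by
    by_contra hcon
    push Not at hcon
    have h1 := hg.one j
    rw [Finset.sum_eq_zero fun u hu => ?_] at h1
    · exact absurd h1 (by norm_num)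
    · have : u j = 0 := by
        rcases hap u (hg.sub hu) with h | h
        · exact h
        · exact absurd h.1 (hcon u hu)
      rw [this]
      simp
  have hvG := hg.sub hvR
  have hvl : v l = 0 := by rcases hap v hvG with h | h <;> omega
  have hothers : ∀ u ∈ R, u ≠ v → u j = 0 := by
    intro u hu hne
    rcases hap u (hg.sub hu) with h | h
    · exact h
    · exact absurd (huniq u (hg.sub hu) v hvG h.1 hvj) hne
  have hγ : γ v = 1 := by
    have h1 := hg.one j
    rw [Finset.sum_eq_single v (fun u hu hne => by rw [hothers u hu hne]; simp)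
      (fun h => absurd hvR h), hvj] at h1
    simpa using h1
  -- the twin
  have htw : ∀ w ∈ R, w i = w j := by
    rcases hg.tw j with ⟨w, hw, hm, hpos⟩ | ⟨j', hj', h⟩
    · exfalso
      have hwv : w = v := by
        by_contra hne
        have := hothers w hw hne
        omega
      apply hm 0
      rw [hwv, hγ]
      simp
    · rcases cases3 hij hil hjl j' with rfl | rfl | rfl
      · exact h
      · exact absurd rfl hj'
      · have := h v hvR
        omega
  have hvi : v i = 1 := by rw [htw v hvR, hvj]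
  refine ⟨⟨v, hvG, hvi, hvj, hvl⟩, ?_⟩
  obtain ⟨w, hwR, hwl⟩ : ∃ w ∈ R, 0 < w l := by
    by_contra hcon
    push Not at hcon
    have h1 := hg.one l
    rw [Finset.sum_eq_zero fun u hu => ?_] at h1
    · exact absurd h1 (by norm_num)
    · have : u l = 0 := by
        have := hcon u hu
        omega
      rw [this]
      simp
  have hwv : w ≠ v := by
    rintro rfl
    omega
  have hwj := hothers w hwR hwv
  exact ⟨w, hg.sub hwR, by rw [htw w hwR, hwj], hwj, hwl⟩

/-- One positive coordinate. -/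
theorem patternA (hg : Good G R γ) (hk : ∀ i, 0 < k i)
    (hG : ∀ u ∈ G, ∑ i, k i * u i = N) {h : Fin 3 → ℚ} (hh : ∀ u ∈ G, 0 ≤ ∑ m, h m * (u m : ℚ))
    {i j l : Fin 3} (hij : i ≠ j) (hil : i ≠ l) (hjl : j ≠ l) (hi : 0 < h i) (hj : h j ≤ 0)
    (hl : h l ≤ 0) (hsum : h i + h j + h l < 0) : Thick G := by
  have hh' : ∀ u ∈ G, 0 ≤ h i * (u i : ℚ) + h j * (u j : ℚ) + h l * (u l : ℚ) := by
    intro u hu
    have := hh u hu
    rwa [sum3 hij hil hjl] at this
  -- a combination `≥ 1` in the coordinates `j`, `l` is `≥ 1` in the coordinate `i`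
  have key : ∀ x y z : ℚ, 0 ≤ h i * x + h j * y + h l * z → 1 ≤ y → 1 ≤ z → 1 ≤ x := by
    intro x y z h1 hy hz
    by_contra hx
    push Not at hx
    nlinarith [mul_nonneg (neg_nonneg.2 hj) (sub_nonneg.2 hy),
      mul_nonneg (neg_nonneg.2 hl) (sub_nonneg.2 hz), mul_pos hi (sub_pos.2 hx)]
  by_cases hA : ∃ u ∈ G, 1 ≤ u j ∧ 1 ≤ u l
  · obtain ⟨u, hu, h1, h2⟩ := hA
    refine thick_of_pt hu fun m => ?_
    rcases cases3 hij hil hjl m with rfl | rfl | rfl
    · have := key _ _ _ (hh' u hu) (by exact_mod_cast h1) (by exact_mod_cast h2)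
      exact_mod_cast this
    · exact h1
    · exact h2
  push Not at hA
  by_cases hB : ∃ u ∈ G, ∃ v ∈ G, 2 ≤ u j ∧ 2 ≤ v l
  · obtain ⟨u, hu, v, hv, h1, h2⟩ := hB
    have e1 : (2 : ℚ) ≤ u j := by exact_mod_cast h1
    have e2 : (2 : ℚ) ≤ v l := by exact_mod_cast h2
    have e3 : (0 : ℚ) ≤ v j := Nat.cast_nonneg _
    have e4 : (0 : ℚ) ≤ u l := Nat.cast_nonneg _
    refine thick_of_mid hu hv fun m => ?_
    rcases cases3 hij hil hjl m with rfl | rfl | rfl
    · have := key (((u m : ℚ) + v m) / 2) (((u j : ℚ) + v j) / 2) (((u l : ℚ) + v l) / 2)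
        (by have := hh' u hu; have := hh' v hv; linarith) (by linarith) (by linarith)
      linarith
    · linarith
    · linarith
  push Not at hB
  exfalso
  -- all heights at most one in direction `j` or in direction `l`
  have hAB : (∀ u ∈ G, u j ≤ 1) ∨ ∀ v ∈ G, v l ≤ 1 := by
    by_cases hc : ∀ u ∈ G, u j ≤ 1
    · exact Or.inl hc
    · push Not at hc
      obtain ⟨u, hu, h1⟩ := hc
      right
      intro v hv
      have := hB u hu v hv (by omega)
      omega
  rcases hAB with hc | hc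
  · obtain ⟨⟨v, hv, h1, h2, h3⟩, w, hw, h4, h5, h6⟩ := apex hg hk hG hij hil hjl (fun u hu => by
      have h1 := hc u hu
      have h2 := hA u hu
      omega)
    have e1 := hh' v hv
    have e2 := hh' w hw
    rw [h1, h2, h3] at e1
    rw [h4, h5] at e2
    push_cast at e1 e2
    have e3 : (0 : ℚ) < w l := by exact_mod_cast h6
    have e4 : 0 ≤ h l := by
      by_contra hcon
      push Not at hcon
      nlinarith
    linarith
  · obtain ⟨⟨v, hv, h1, h2, h3⟩, w, hw, h4, h5, h6⟩ := apex hg hk hG hil hij hjl.symm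
      (fun u hu => by
        have h1 := hc u hu
        have h2 := hA u hu
        omega)
    have e1 := hh' v hv
    have e2 := hh' w hw
    rw [h1, h2, h3] at e1
    rw [h4, h5] at e2
    push_cast at e1 e2
    have e3 : (0 : ℚ) < w j := by exact_mod_cast h6
    have e4 : 0 ≤ h j := by
      by_contra hcon
      push Not at hcon
      nlinarith
    linarith

/-- Two positive coordinates: the case where all points with `u_l ≥ 1` have `u_j = 0`. -/
theorem patternB1 (hg : Good G R γ) (hk : ∀ i, 0 < k i)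
    (hG : ∀ u ∈ G, ∑ i, k i * u i = N) {h : Fin 3 → ℚ} (hh : ∀ u ∈ G, 0 ≤ ∑ m, h m * (u m : ℚ))
    {i j l : Fin 3} (hij : i ≠ j) (hil : i ≠ l) (hjl : j ≠ l) (hi : 0 < h i) (hj : 0 < h j)
    (hsum : h i + h j + h l < 0) (hG1 : ∀ u ∈ G, 1 ≤ u l → u j = 0) : Thick G := by
  have hh' : ∀ u ∈ G, 0 ≤ h i * (u i : ℚ) + h j * (u j : ℚ) + h l * (u l : ℚ) := by
    intro u hu
    have := hh u hu
    rwa [sum3 hij hil hjl] at this
  by_cases hB : ∃ u ∈ G, ∃ v ∈ G, 2 ≤ u j ∧ 2 ≤ v l
  · obtain ⟨u, hu, v, hv, h1, h2⟩ := hB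
    have hvj := hG1 v hv (by omega)
    have e1 : (2 : ℚ) ≤ u j := by exact_mod_cast h1
    have e2 : (2 : ℚ) ≤ v l := by exact_mod_cast h2
    have e3 : (0 : ℚ) ≤ v j := Nat.cast_nonneg _
    have e4 : (0 : ℚ) ≤ u l := Nat.cast_nonneg _
    have e5 : (0 : ℚ) ≤ u i := Nat.cast_nonneg _
    have e6 := hh' v hv
    rw [hvj] at e6
    have e7 : (2 : ℚ) ≤ v i := by
      by_contra hcon
      push Not at hcon
      push_cast at e6
      nlinarith
    refine thick_of_mid hu hv fun m => ?_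
    rcases cases3 hij hil hjl m with rfl | rfl | rfl
    · linarith
    · linarith
    · linarith
  push Not at hB
  exfalso
  by_cases hc : ∀ u ∈ G, u l ≤ 1
  · obtain ⟨⟨v, hv, h1, h2, h3⟩, -⟩ := apex hg hk hG hil hij hjl.symm
      (fun u hu => by
        have h1 := hc u hu
        have h2 := hG1 u hu
        omega)
    have e1 := hh' v hv
    rw [h1, h2, h3] at e1
    push_cast at e1
    linarith
  · push Not at hc
    obtain ⟨v, hv, h1⟩ := hc
    have hc : ∀ u ∈ G, u j ≤ 1 := by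
      intro u hu
      by_contra hcon
      have := hB u hu v hv (by omega)
      omega
    obtain ⟨-, w, hw, h4, h5, h6⟩ := apex hg hk hG hij hil hjl (fun u hu => by
      have h1 := hc u hu
      have h2 := hG1 u hu
      omega)
    have e2 := hh' w hw
    rw [h4, h5] at e2
    push_cast at e2
    have e3 : (0 : ℚ) < w l := by exact_mod_cast h6
    have e4 : h l < 0 := by linarith
    nlinarith

/-- Two positive coordinates. -/
theorem patternB (hg : Good G R γ) (hk : ∀ i, 0 < k i)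
    (hG : ∀ u ∈ G, ∑ i, k i * u i = N) {h : Fin 3 → ℚ} (hh : ∀ u ∈ G, 0 ≤ ∑ m, h m * (u m : ℚ))
    {i j l : Fin 3} (hij : i ≠ j) (hil : i ≠ l) (hjl : j ≠ l) (hi : 0 < h i) (hj : 0 < h j)
    (hsum : h i + h j + h l < 0) : Thick G := by
  have hh' : ∀ u ∈ G, 0 ≤ h i * (u i : ℚ) + h j * (u j : ℚ) + h l * (u l : ℚ) := by
    intro u hu
    have := hh u hu
    rwa [sum3 hij hil hjl] at this
  by_cases hP : ∃ u ∈ G, 1 ≤ u l ∧ 1 ≤ u j ∧ 1 ≤ u i
  · obtain ⟨u, hu, h1, h2, h3⟩ := hP
    refine thick_of_pt hu fun m => ?_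
    rcases cases3 hij hil hjl m with rfl | rfl | rfl
    · exact h3
    · exact h2
    · exact h1
  push Not at hP
  by_cases h1 : ∀ u ∈ G, 1 ≤ u l → u j = 0
  · exact patternB1 hg hk hG hh hij hil hjl hi hj hsum h1
  by_cases h2 : ∀ u ∈ G, 1 ≤ u l → u i = 0
  · exact patternB1 hg hk hG hh hij.symm hjl hil hj hi (by linarith) h2
  push Not at h1 h2
  obtain ⟨u, hu, hul, huj⟩ := h1
  obtain ⟨v, hv, hvl, hvi⟩ := h2
  have hui : u i = 0 := by
    have := hP u hu hul (by omega)
    omega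
  have hvj : v j = 0 := by
    by_contra hcon
    have := hP v hv hvl (by omega)
    omega
  have e1 := hh' u hu
  have e2 := hh' v hv
  rw [hui] at e1
  rw [hvj] at e2
  push_cast at e1 e2
  have e3 : (1 : ℚ) ≤ u l := by exact_mod_cast hul
  have e4 : (1 : ℚ) ≤ v l := by exact_mod_cast hvl
  have e5 : (1 : ℚ) < u j := by
    by_contra hcon
    push Not at hcon
    nlinarith
  have e6 : (1 : ℚ) < v i := by
    by_contra hcon
    push Not at hcon
    nlinarith
  have e7 : 2 ≤ u j := by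
    have : 1 < u j := by exact_mod_cast e5
    omega
  have e8 : 2 ≤ v i := by
    have : 1 < v i := by exact_mod_cast e6
    omega
  have e9 : (2 : ℚ) ≤ u j := by exact_mod_cast e7
  have e10 : (2 : ℚ) ≤ v i := by exact_mod_cast e8
  have p1 : (0 : ℚ) ≤ u i := Nat.cast_nonneg _
  have p2 : (0 : ℚ) ≤ v j := Nat.cast_nonneg _
  refine thick_of_mid hu hv fun m => ?_
  rcases cases3 hij hil hjl m with rfl | rfl | rfl
  · linarith
  · linarith
  · linarith

/-- **The facet lemma.** -/
theorem oneMem_or_thick (hg : Good G R γ) (hk : ∀ i, 0 < k i)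
    (hG : ∀ u ∈ G, ∑ i, k i * u i = N) : OneMem G ∨ Thick G := by
  classical
  rcases LC.farkas G (fun u : Fin 3 → ℕ => fun j : Fin 3 => (u j : ℚ)) (fun _ => (1 : ℚ)) with
    ⟨s, hs, hx⟩ | ⟨φ, hφ, hφ1⟩
  · left
    refine ⟨s, hs, fun j => ?_⟩
    have := congrFun hx j
    rw [Finset.sum_apply] at this
    rw [this]
    rfl
  · right
    let h : Fin 3 → ℚ := fun m => φ (Pi.single m 1)
    have hφe : ∀ x : Fin 3 → ℚ, φ x = ∑ m, h m * x m := by
      intro x
      conv_lhs => rw [← Finset.univ_sum_single x]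
      rw [map_sum]
      refine Finset.sum_congr rfl fun m _ => ?_
      have : (Pi.single m (x m) : Fin 3 → ℚ) = x m • Pi.single m (1 : ℚ) := by
        rw [← Pi.single_smul, smul_eq_mul, mul_one]
      rw [this, map_smul, smul_eq_mul, mul_comm]
    have hh : ∀ u ∈ G, 0 ≤ ∑ m, h m * (u m : ℚ) := by
      intro u hu
      have := hφ u hu
      rwa [hφe] at this
    have hs : h 0 + h 1 + h 2 < 0 := by
      have := hφ1
      rw [hφe, Fin.sum_univ_three] at this
      linarith
    have d01 : (0 : Fin 3) ≠ 1 := by decide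
    have d02 : (0 : Fin 3) ≠ 2 := by decide
    have d12 : (1 : Fin 3) ≠ 2 := by decide
    rcases lt_or_ge 0 (h 0) with p0 | p0 <;> rcases lt_or_ge 0 (h 1) with p1 | p1 <;>
      rcases lt_or_ge 0 (h 2) with p2 | p2
    · linarith
    · exact patternB hg hk hG hh d01 d02 d12 p0 p1 hs
    · exact patternB hg hk hG hh d02 d01 d12.symm p0 p2 (by linarith)
    · exact patternA hg hk hG hh d01 d02 d12 p0 p1 p2 hs
    · exact patternB hg hk hG hh d12 d01.symm d02.symm p1 p2 (by linarith)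
    · exact patternA hg hk hG hh d01.symm d12 d02 p1 p0 p2 (by linarith)
    · exact patternA hg hk hG hh d02.symm d12.symm d01 p2 p0 p1 (by linarith)
    · exfalso
      -- `h ≤ 0`: `h` vanishes on `G`, but `∑ γ_u h(u) = h(1) < 0`
      have h0 : ∀ u ∈ G, ∑ m, h m * (u m : ℚ) = 0 := by
        intro u hu
        refine le_antisymm (Finset.sum_nonpos fun m _ => ?_) (hh u hu)
        refine mul_nonpos_of_nonpos_of_nonneg ?_ (Nat.cast_nonneg _)
        fin_cases m
        · exact p0
        · exact p1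
        · exact p2
      have h1 : ∑ u ∈ R, γ u * ∑ m, h m * (u m : ℚ) = ∑ m, h m := by
        calc ∑ u ∈ R, γ u * ∑ m, h m * (u m : ℚ) = ∑ u ∈ R, ∑ m, h m * (γ u * (u m : ℚ)) := by
              refine Finset.sum_congr rfl fun u _ => ?_
              rw [Finset.mul_sum]
              exact Finset.sum_congr rfl fun m _ => by ring
          _ = ∑ m, h m * ∑ u ∈ R, γ u * (u m : ℚ) := by
              rw [Finset.sum_comm]
              exact Finset.sum_congr rfl fun m _ => by rw [Finset.mul_sum]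
          _ = ∑ m, h m := Finset.sum_congr rfl fun m _ => by rw [hg.one m, mul_one]
      rw [Finset.sum_eq_zero (fun u hu => by rw [h0 u (hg.sub hu), mul_zero]),
        Fin.sum_univ_three] at h1
      linarith

end MPb07157.C3
end
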