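import Pool.Agent.Lib.MP_b07157_agC3.C3
import Pool.Agent.Lib.MP_b07157_ag.PS.R2

/-!
# C3 for good sets of polynomials in three variables
-/

noncomputable section

namespace MPb07157.C3

open Finset MvPolynomial

/-- The facet lemma for a good set in the face of `k`, all `k_i > 0`. -/
theorem facet3_goodSet {f : MvPolynomial (Fin 3) ℂ} {s₀ : ℚ} {k : GG 3}
    (hk : ∀ i, 0 < k.1 i) {ρ : Finset (Sf f)} {γ : Sf f → ℚ} (hg : GoodSet f s₀ k ρ γ) :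
    (∃ l : (Fin 3 →₀ ℕ) → ℚ, (∀ v ∈ Gk f k, 0 ≤ l v) ∧
      ∀ j, ∑ v ∈ Gk f k, l v * (v j : ℚ) = 1) ∨
    (∃ l : (Fin 3 →₀ ℕ) → ℚ, (∀ v ∈ Gk f k, 0 ≤ l v) ∧ ∑ v ∈ Gk f k, l v = 1 ∧
      (∀ j, 1 ≤ ∑ v ∈ Gk f k, l v * (v j : ℚ)) ∧
      ∃ j, ∀ m : ℤ, ∑ v ∈ Gk f k, l v * (v j : ℚ) ≠ m) ∨
    (∃ l : (Fin 3 →₀ ℕ) → ℚ, (∀ v ∈ Gk f k, 0 ≤ l v) ∧ ∑ v ∈ Gk f k, l v = 1 ∧
      (∀ j, ∃ m : ℕ, 1 ≤ m ∧ ∑ v ∈ Gk f k, l v * (v j : ℚ) = m) ∧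
      ∃ i i', i ≠ i' ∧ ∑ v ∈ Gk f k, l v * (v i : ℚ) = 1 ∧
        ∑ v ∈ Gk f k, l v * (v i' : ℚ) = 1) := by
  classical
  let G : Finset (Fin 3 → ℕ) := (Gk f k).image (fun u : Fin 3 →₀ ℕ => (u : Fin 3 → ℕ))
  let R : Finset (Fin 3 → ℕ) := ρ.image (fun u : Sf f => (u.1 : Fin 3 → ℕ))
  have hinj : ∀ a b : Fin 3 →₀ ℕ, (a : Fin 3 → ℕ) = (b : Fin 3 → ℕ) → a = b :=
    fun a b h => DFunLike.coe_injective h
  have hGsum : ∀ F : (Fin 3 → ℕ) → ℚ, ∑ v ∈ G, F v = ∑ v ∈ Gk f k, F v := fun F => by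
    simp only [G]
    rw [Finset.sum_image fun a _ b _ h => hinj a b h]
  have hGmem : ∀ u, u ∈ G ↔ ∃ v ∈ Gk f k, (v : Fin 3 → ℕ) = u := fun u => by
    simp only [G, Finset.mem_image]
  have hRmem : ∀ u, u ∈ R ↔ ∃ v ∈ ρ, (v.1 : Fin 3 → ℕ) = u := fun u => by
    simp only [R, Finset.mem_image]
  let γ' : (Fin 3 → ℕ) → ℚ := fun u =>
    if h : (Finsupp.equivFunOnFinite.symm u) ∈ f.support then
      γ ⟨Finsupp.equivFunOnFinite.symm u, h⟩ else 0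
  have hγ' : ∀ v : Sf f, γ' (v.1 : Fin 3 → ℕ) = γ v := fun v => by
    have h1 : Finsupp.equivFunOnFinite.symm (v.1 : Fin 3 → ℕ) = v.1 :=
      Finsupp.equivFunOnFinite_symm_coe v.1
    simp only [γ']
    split_ifs with h
    · congr 1
      exact Subtype.ext h1
    · exact absurd (h1 ▸ v.2) h
  have hone : ∀ j, ∑ u ∈ R, γ' u * (u j : ℚ) = 1 := by
    intro j
    have hj : j ∈ suppG k := Finset.mem_filter.2 ⟨Finset.mem_univ _, (hk j).ne'⟩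
    rw [← hg.one j hj]
    simp only [R]
    rw [Finset.sum_image (fun a _ b _ h => Subtype.ext (hinj _ _ h))]
    rw [← Finset.sum_subset (Finset.subset_univ ρ) (fun v _ hv => by rw [hg.zero v hv, zero_mul])]
    exact Finset.sum_congr rfl fun v _ => by rw [hγ']
  have hkn : ∀ j, 0 < (k.1 j).toNat := fun j => by
    have := hk j
    omega
  have hplane : ∀ v ∈ G, ∑ j, (k.1 j).toNat * v j = k.2.toNat := by
    intro u hu
    obtain ⟨v, hv, rfl⟩ := (hGmem u).1 hu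
    have h1 : dotH v k = k.2 := (Finset.mem_filter.1 hv).2
    rw [dotH_apply] at h1
    have h2 : (0 : ℤ) ≤ k.2 := by
      rw [← h1]
      exact Finset.sum_nonneg fun j _ => mul_nonneg (hk j).le (Int.natCast_nonneg _)
    zify
    rw [Int.toNat_of_nonneg h2, ← h1]
    exact Finset.sum_congr rfl fun j _ => by rw [Int.toNat_of_nonneg (hk j).le]
  have key := facet3 G (fun j => (k.1 j).toNat) k.2.toNat hkn hplane R (by
      intro u hu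
      obtain ⟨v, hv, rfl⟩ := (hRmem u).1 hu
      exact (hGmem _).2 ⟨v.1, hg.face v hv, rfl⟩) γ' hone (by
      intro j
      have hj : j ∈ suppG k := Finset.mem_filter.2 ⟨Finset.mem_univ _, (hk j).ne'⟩
      rcases hg.tw j hj with ⟨v, hv, h1, h2⟩ | ⟨j', -, hj', h⟩
      · exact Or.inl ⟨v.1, (hRmem _).2 ⟨v, hv, rfl⟩, fun m => by rw [hγ']; exact h1 m, h2⟩
      · refine Or.inr ⟨j', hj', fun u hu => ?_⟩
        obtain ⟨v, hv, rfl⟩ := (hRmem u).1 hu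
        exact h v hv)
  simp only [hGsum] at key
  have hmem : ∀ {l : (Fin 3 → ℕ) → ℚ}, (∀ v ∈ G, 0 ≤ l v) → ∀ v ∈ Gk f k, 0 ≤ l v :=
    fun h v hv => h _ ((hGmem _).2 ⟨v, hv, rfl⟩)
  rcases key with ⟨l, h1, h2⟩ | ⟨l, h1, h2⟩ | ⟨l, h1, h2⟩
  · exact Or.inl ⟨fun v => l v, hmem h1, h2⟩
  · exact Or.inr (Or.inl ⟨fun v => l v, hmem h1, h2⟩)
  · exact Or.inr (Or.inr ⟨fun v => l v, hmem h1, h2⟩)

end MPb07157.C3
end
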